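import Pool.Agent.Q191.HMBasic

/-!
# The ternary identity does not characterise conditional expectations of Hilbert modules

Let `B = E = ℂ²`, let `F` be the scalar multiples of `1 = (1, 1)` and
`P (a, b) = (2 a - b) 1`. Then `P` is a linear idempotent of `E` onto the closed ternary subspace
`F` with `P (P x ⟨y, P z⟩) = P x ⟨P y, P z⟩`, but `P` has norm `3`, so it is not the `(2, 1)`-corner
of a blockwise conditional expectation between the reduced linking algebras.
-/

set_option autoImplicit false

open Pool.Agent.Q191.HM HilbMod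

namespace Pool.Agent.Results.MP_0a1256_an.NotExpectation

/-- `P` is a linear idempotent of `E` onto the closed ternary subspace `F` which satisfies the
ternary identity `P (P x ⟨y, P z⟩) = P x ⟨P y, P z⟩`. -/
structure IsTernaryIdem (B : Type) {E : Type} [NonUnitalCStarAlgebra B] [NormedAddCommGroup E]
    [NormedSpace ℂ E] [HilbMod B E] (F : Submodule ℂ E) (P : Op E) : Prop where
  isTernary : IsTernary B F
  mem : ∀ x, ap P x ∈ F
  idem : ∀ x ∈ F, ap P x = x
  identity : ∀ x y z : E, ap P (act (ap P x) (inn y (ap P z) : B)) =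
    act (ap P x) (inn (ap P y) (ap P z) : B)

/-- the C*-algebra `ℂ²` -/
abbrev C2 : Type := Fin 2 → ℂ

noncomputable instance : HilbMod C2 C2 where
  act x b := x * b
  inn x y := star x * y
  add_act x y b := add_mul x y b
  smul_act c x b := smul_mul_assoc c x b
  act_add x a b := mul_add x a b
  act_smul c x b := mul_smul_comm c x b
  act_mul x a b := (mul_assoc x a b).symm
  inn_add x y z := mul_add _ _ _
  inn_smul c x y := mul_smul_comm c _ _
  inn_act x y b := (mul_assoc _ _ _).symm
  star_inn x y := by rw [star_mul, star_star]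
  inn_self x := ⟨x, rfl⟩
  norm_sq x := by rw [CStarRing.norm_star_mul_self, sq]

lemma act_def (x b : C2) : act x b = x * b := rfl
lemma inn_def (x y : C2) : (inn x y : C2) = star x * y := rfl

/-- the scalar multiples of `1` -/
noncomputable def F : Submodule ℂ C2 := Submodule.span ℂ {(1 : C2)}

/-- `P (a, b) = (2 a - b) 1` -/
noncomputable def P0 : C2 →ₗ[ℂ] C2 where
  toFun x := (2 * x 0 - x 1) • (1 : C2)
  map_add' x y := by
    simp only [Pi.add_apply]
    rw [← add_smul]; congr 1; ring
  map_smul' c x := by
    simp only [Pi.smul_apply, smul_eq_mul, RingHom.id_apply]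
    rw [← mul_smul]; congr 1; ring

/-- `P (a, b) = (2 a - b) 1` -/
noncomputable def P : Op C2 := P0.toContinuousLinearMap

lemma P_apply (x : C2) : ap P x = (2 * x 0 - x 1) • (1 : C2) := rfl

lemma mem_F {x : C2} : x ∈ F ↔ ∃ c : ℂ, c • (1 : C2) = x := Submodule.mem_span_singleton

/-- **A linear idempotent satisfying the ternary identity which is not a conditional expectation.**
There are a C*-algebra `B`, a Hilbert `B`-module `E`, a closed ternary subspace `F` of `E` and a
linear idempotent `P` of `E` onto `F` with `P (P x ⟨y, P z⟩) = P x ⟨P y, P z⟩` for all `x, y, z`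
which is not contractive, and which is not the restriction to the `(2, 1)`-corner of a blockwise
conditional expectation of the reduced linking algebra of `E` onto that of `F`. -/
theorem result : ∃ (B E : Type) (_ : NonUnitalCStarAlgebra B) (_ : NormedAddCommGroup E)
    (_ : NormedSpace ℂ E) (_ : CompleteSpace E) (_ : HilbMod B E) (F : Submodule ℂ E)
    (P : Op E), IsTernaryIdem B F P ∧ (∃ x, ‖x‖ ≤ 1 ∧ 3 ≤ ‖ap P x‖) ∧
      ¬ ∃ Φ, IsBlockwiseCondExp B F Φ ∧ ∀ x, Φ.x x = ap P x := by
  refine ⟨C2, C2, inferInstance, inferInstance, inferInstance, inferInstance, inferInstance, F, P,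
    ⟨⟨?_, ?_⟩, ?_, ?_, ?_⟩, ?_, ?_⟩
  · exact Submodule.closed_of_finiteDimensional F
  · intro x hx y hy z hz
    obtain ⟨a, rfl⟩ := mem_F.1 hx
    obtain ⟨b, rfl⟩ := mem_F.1 hy
    obtain ⟨c, rfl⟩ := mem_F.1 hz
    refine mem_F.2 ⟨a * (star b * c), ?_⟩
    rw [act_def, inn_def]
    ext i
    simp only [Pi.smul_apply, Pi.mul_apply, Pi.star_apply, Pi.one_apply, smul_eq_mul, star_mul,
      star_one]
    ring
  · intro x
    exact mem_F.2 ⟨_, rfl⟩
  · intro x hx
    obtain ⟨a, rfl⟩ := mem_F.1 hx
    rw [P_apply]
    ext i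
    simp
    ring
  · intro x y z
    simp only [act_def, inn_def, P_apply]
    ext i
    simp
    ring
  · refine ⟨![1, -1], ?_, ?_⟩
    · rw [pi_norm_le_iff_of_nonneg zero_le_one]
      intro i
      fin_cases i <;> simp
    · rw [P_apply, norm_smul, norm_one, mul_one]
      norm_num
  · rintro ⟨Φ, hΦ, hext⟩
    -- the matrix with `(2, 1)`-entry `x = (1, -1)`
    let x : C2 := ![1, -1]
    have h1mem : (1 : C2) ∈ innSpan C2 (⊤ : Submodule ℂ C2) :=
      Submodule.le_topologicalClosure _ (Submodule.subset_span
        ⟨1, trivial, 1, trivial, by rw [inn_def]; simp⟩)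
    have hTmem : (cornerX x : Mat C2 C2) ∈ link C2 (⊤ : Submodule ℂ C2) := cornerX_mem trivial
    have h1 := hΦ.contractive _ hTmem
    have h2 := linkNorm_cornerX_le (B := C2) x
    have happ : Φ.app (cornerX x : Mat C2 C2) = cornerX (ap P x) := by
      have hb : Φ.b 0 = 0 := by
        have := hΦ.linear.b.2 0 0 (Submodule.zero_mem _)
        simpa using this
      have hy : Φ.y 0 = 0 := by
        have := hΦ.linear.y.2 0 0 (Submodule.zero_mem _)
        simpa using this
      have hk : Φ.k 0 = 0 := by
        have := hΦ.linear.k.2 0 0 (Submodule.zero_mem _)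
        simpa using this
      simp [Block.app, cornerX, hb, hy, hk, hext]
    rw [happ] at h1
    have h3 := le_linkNorm_cornerX (B := C2) (ap P x) h1mem (by simp)
    have hx : ‖x‖ ≤ 1 := by
      rw [pi_norm_le_iff_of_nonneg zero_le_one]
      intro i
      fin_cases i <;> simp [x]
    have h4 : ‖act (ap P x) (1 : C2)‖ = 3 := by
      rw [act_def, mul_one, P_apply, norm_smul, norm_one, mul_one]
      simp only [x]
      norm_num
    rw [h4] at h3
    linarith

end Pool.Agent.Results.MP_0a1256_an.NotExpectation
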